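import Mathlib
import Pool.Agent.W4.VC.Stms
import Pool.Agent.H510R2.Div

/-!
Project VC (helper4): the number of roots of a squarefree polynomial modulo `N`.
The argument follows `Pool.Agent.W753.CD.ROOTQ`.
-/

set_option autoImplicit false

namespace Pool.Agent.W177.VC.ROOT

open Finset Polynomial

/-- the roots modulo `q` -/
def R (f : ℤ[X]) (q : ℕ) : Finset ℕ := (range q).filter (fun t : ℕ => (q : ℤ) ∣ f.eval (t : ℤ))

lemma mem_R {f : ℤ[X]} {q t : ℕ} : t ∈ R f q ↔ t < q ∧ (q : ℤ) ∣ f.eval (t : ℤ) := by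
  unfold R; rw [mem_filter, mem_range]

lemma dvd_transfer {f : ℤ[X]} {s t m : ℤ} (h : m ∣ s - t) (ht : m ∣ f.eval t) :
    m ∣ f.eval s := by
  have h1 : m ∣ f.eval s - f.eval t := h.trans (Polynomial.sub_dvd_eval_sub s t f)
  have := dvd_add h1 ht
  rwa [sub_add_cancel] at this

lemma R_mul {f : ℤ[X]} {a b : ℕ} (ha : 1 < a) (hb : 1 < b) (h : a.Coprime b) :
    (R f (a * b)).card ≤ (R f a).card * (R f b).card := by
  rw [← card_product]
  apply card_le_card_of_injOn (fun t => (t % a, t % b))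
  · intro t ht
    rw [mem_coe, mem_R] at ht
    rw [mem_coe, mem_product, mem_R, mem_R]
    have key : ∀ c : ℕ, 0 < c → (c : ℤ) ∣ ((a * b : ℕ) : ℤ) → t % c < c ∧
        (c : ℤ) ∣ f.eval ((t % c : ℕ) : ℤ) := by
      intro c hc hd
      refine ⟨Nat.mod_lt _ hc, ?_⟩
      apply dvd_transfer (t := (t : ℤ)) _ (hd.trans ht.2)
      rw [Int.natCast_mod]
      have := Int.dvd_self_sub_emod (x := (t : ℤ)) (m := (c : ℤ))
      have h2 := dvd_neg.2 this
      rwa [neg_sub] at h2
    exact ⟨key a (by omega) ⟨b, by push_cast; ring⟩, key b (by omega) ⟨a, by push_cast; ring⟩⟩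
  · intro t ht t' ht' he
    rw [mem_coe, mem_R] at ht ht'
    have h1 : t % a = t' % a := congrArg Prod.fst he
    have h2 : t % b = t' % b := congrArg Prod.snd he
    have h3 : t ≡ t' [MOD a * b] := (Nat.modEq_and_modEq_iff_modEq_mul h).1 ⟨h1, h2⟩
    exact h3.eq_of_lt_of_lt ht.1 ht'.1

lemma dvd_of_not {p : ℕ} (hp : p.Prime) {a b : ℤ} {k d : ℕ}
    (h : (p : ℤ) ^ k ∣ a * b) (hb : ¬ (p : ℤ) ^ (d + 1) ∣ b) : (p : ℤ) ^ (k - d) ∣ a := by
  rcases le_or_gt k d with hk | hk
  · rw [Nat.sub_eq_zero_of_le hk, pow_zero]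
    exact one_dvd _
  have hpz : Prime (p : ℤ) := Nat.prime_iff_prime_int.1 hp
  have hb0 : b ≠ 0 := by rintro rfl; exact hb (dvd_zero _)
  have hfin : FiniteMultiplicity (p : ℤ) b :=
    Int.finiteMultiplicity_iff.2 ⟨by rw [Int.natAbs_natCast]; exact hp.one_lt.ne', hb0⟩
  obtain ⟨c, hc, hpc⟩ := hfin.exists_eq_pow_mul_and_not_dvd
  set e := multiplicity (p : ℤ) b
  have he : e ≤ d := by
    by_contra hcon
    apply hb
    rw [hc]
    exact (pow_dvd_pow _ (by omega)).mul_right _
  rw [hc, ← mul_assoc] at h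
  have h1 : (p : ℤ) ^ k ∣ a * (p : ℤ) ^ e := hpz.pow_dvd_of_dvd_mul_right k hpc h
  have h2 : (p : ℤ) ^ (k - e) * (p : ℤ) ^ e ∣ a * (p : ℤ) ^ e := by
    rw [← pow_add, show k - e + e = k by omega]; exact h1
  have h3 : (p : ℤ) ^ (k - e) ∣ a := Int.dvd_of_mul_dvd_mul_right (pow_ne_zero _ hpz.ne_zero) h2
  exact (pow_dvd_pow _ (by omega)).trans h3

/-- two roots which are congruent modulo `p ^ (d + 1)` -/
lemma close {f u w : ℤ[X]} {D : ℤ} (hB : u * f + w * derivative f = C D) {p : ℕ} (hp : p.Prime)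
    {d k : ℕ} (hk : d + 1 ≤ k) (hD : ¬ (p : ℤ) ^ (d + 1) ∣ D) {t t' : ℤ}
    (ht : (p : ℤ) ^ k ∣ f.eval t) (ht' : (p : ℤ) ^ k ∣ f.eval t')
    (hc : (p : ℤ) ^ (d + 1) ∣ t - t') : (p : ℤ) ^ (k - d) ∣ t - t' := by
  obtain ⟨c, hce⟩ := Polynomial.binomExpansion f t' (t - t')
  rw [show t' + (t - t') = t by ring] at hce
  apply dvd_of_not hp (b := (derivative f).eval t' + c * (t - t'))
  · have e : (t - t') * ((derivative f).eval t' + c * (t - t')) = f.eval t - f.eval t' := by
      rw [hce]; ring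
    rw [e]
    exact dvd_sub ht ht'
  · intro hg
    apply hD
    have h1 : (p : ℤ) ^ (d + 1) ∣ (derivative f).eval t' := by
      have h2 := dvd_sub hg (hc.mul_left c)
      rwa [add_sub_cancel_right] at h2
    have h3 : D = u.eval t' * f.eval t' + w.eval t' * (derivative f).eval t' := by
      have := congrArg (Polynomial.eval t') hB
      rw [Polynomial.eval_add, Polynomial.eval_mul, Polynomial.eval_mul, Polynomial.eval_C] at this
      exact this.symm
    rw [h3]
    exact dvd_add (((pow_dvd_pow _ hk).trans ht').mul_left _) (h1.mul_left _)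

lemma R_card_le (f : ℤ[X]) (q : ℕ) : (R f q).card ≤ q := by
  have := card_filter_le (range q) (fun t : ℕ => (q : ℤ) ∣ f.eval (t : ℤ))
  rw [card_range] at this
  exact this

lemma R_pow_good {f u w : ℤ[X]} {D : ℤ} (hB : u * f + w * derivative f = C D) {p : ℕ}
    (hp : p.Prime) {k : ℕ} (hk : 1 ≤ k) (hD : ¬ (p : ℤ) ∣ D) :
    (R f (p ^ k)).card ≤ 2 ^ (f.natDegree + 1) := by
  classical
  have : Fact p.Prime := ⟨hp⟩
  set P : Polynomial (ZMod p) := f.map (Int.castRingHom (ZMod p)) with hP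
  have hP0 : P ≠ 0 := by
    intro h0
    apply hD
    have h1 := congrArg (Polynomial.map (Int.castRingHom (ZMod p))) hB
    rw [Polynomial.map_add, Polynomial.map_mul, Polynomial.map_mul, ← Polynomial.derivative_map,
      ← hP, h0, Polynomial.derivative_zero, mul_zero, mul_zero, add_zero, Polynomial.map_C] at h1
    have h2 := (Polynomial.C_eq_zero).1 h1.symm
    exact (ZMod.intCast_zmod_eq_zero_iff_dvd D p).1 h2
  have h1 : P.roots.toFinset.card ≤ 2 ^ (f.natDegree + 1) := by
    refine (Multiset.toFinset_card_le _).trans ?_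
    refine (P.card_roots').trans ?_
    refine (Polynomial.natDegree_map_le).trans ?_
    exact (Nat.le_succ _).trans (Nat.lt_two_pow_self).le
  refine le_trans ?_ h1
  apply card_le_card_of_injOn (fun t : ℕ => (t : ZMod p))
  · intro t ht
    rw [mem_coe, mem_R] at ht
    rw [mem_coe, Multiset.mem_toFinset, Polynomial.mem_roots hP0]
    have h2 : (p : ℤ) ∣ f.eval (t : ℤ) := by
      refine dvd_trans ?_ ht.2
      push_cast
      exact dvd_pow_self _ (by omega)
    have h3 := (ZMod.intCast_zmod_eq_zero_iff_dvd _ _).2 h2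
    rw [Polynomial.IsRoot, hP]
    have h4 := Polynomial.eval_map_apply (Int.castRingHom (ZMod p)) (p := f) (t : ℤ)
    have h5 : (Int.castRingHom (ZMod p)) (t : ℤ) = (t : ZMod p) := by simp
    rw [h5] at h4
    rw [h4]
    exact h3
  · intro t ht t' ht' he
    rw [mem_coe, mem_R] at ht ht'
    have h2 : (p : ℤ) ^ (0 + 1) ∣ (t : ℤ) - t' := by
      have he' : (t : ZMod p) = (t' : ZMod p) := he
      have h3 : (((t : ℤ) - (t' : ℤ) : ℤ) : ZMod p) = 0 := by
        push_cast
        rw [he', sub_self]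
      have h4 := (ZMod.intCast_zmod_eq_zero_iff_dvd _ _).1 h3
      rw [zero_add, pow_one]
      exact h4
    have h3 := close hB hp (d := 0) (k := k) (by omega) (by rwa [zero_add, pow_one])
      (by have := ht.2; push_cast at this; exact this)
      (by have := ht'.2; push_cast at this; exact this) h2
    rw [Nat.sub_zero] at h3
    have h4 : t ≡ t' [MOD p ^ k] := by
      apply Nat.ModEq.symm
      rw [Nat.modEq_iff_dvd]
      push_cast
      exact h3
    exact h4.eq_of_lt_of_lt ht.1 ht'.1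

lemma R_pow_bad {f u w : ℤ[X]} {D : ℤ} (hB : u * f + w * derivative f = C D) {p : ℕ}
    (hp : p.Prime) {k d : ℕ} (hd : 1 ≤ d) (hD : ¬ (p : ℤ) ^ (d + 1) ∣ D) :
    (R f (p ^ k)).card ≤ p ^ (3 * d) := by
  rcases le_or_gt k (3 * d) with hk | hk
  · exact (R_card_le f _).trans (Nat.pow_le_pow_right hp.pos hk)
  · have h1 : (range (p ^ (d + 1)) ×ˢ range (p ^ d)).card ≤ p ^ (3 * d) := by
      rw [card_product, card_range, card_range, ← pow_add]
      exact Nat.pow_le_pow_right hp.pos (by omega)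
    refine le_trans ?_ h1
    apply card_le_card_of_injOn (fun t : ℕ => (t % p ^ (d + 1), t / p ^ (k - d)))
    · intro t ht
      rw [mem_coe, mem_R] at ht
      rw [mem_coe, mem_product, mem_range, mem_range]
      refine ⟨Nat.mod_lt _ (Nat.pow_pos hp.pos), ?_⟩
      apply Nat.div_lt_of_lt_mul
      rw [← pow_add, show k - d + d = k by omega]
      exact ht.1
    · intro t ht t' ht' he
      rw [mem_coe, mem_R] at ht ht'
      have e1 : t % p ^ (d + 1) = t' % p ^ (d + 1) := congrArg Prod.fst he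
      have e2 : t / p ^ (k - d) = t' / p ^ (k - d) := congrArg Prod.snd he
      have h2 : (p : ℤ) ^ (d + 1) ∣ (t : ℤ) - t' := by
        have h5 : t' ≡ t [MOD p ^ (d + 1)] := e1.symm
        have := (Nat.modEq_iff_dvd.1 h5)
        push_cast at this
        exact this
      have h3 := close hB hp (d := d) (k := k) (by omega) hD
        (by have := ht.2; push_cast at this; exact this)
        (by have := ht'.2; push_cast at this; exact this) h2
      have h4 : t' ≡ t [MOD p ^ (k - d)] := by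
        rw [Nat.modEq_iff_dvd]
        push_cast
        exact h3
      have h5 : t % p ^ (k - d) = t' % p ^ (k - d) := h4.symm
      rw [← Nat.div_add_mod t (p ^ (k - d)), ← Nat.div_add_mod t' (p ^ (k - d)), e2, h5]

/-- the bound for all `q` -/
lemma R_le {f u w : ℤ[X]} {D : ℤ} (hB : u * f + w * derivative f = C D) (hD : D ≠ 0)
    (q : ℕ) (hq : 1 ≤ q) :
    (R f q).card ≤ ∏ p ∈ q.primeFactors,
      2 ^ (f.natDegree + 1) * p ^ (3 * D.natAbs.factorization p) := by
  set n0 := D.natAbs with hn0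
  have hn : n0 ≠ 0 := Int.natAbs_ne_zero.2 hD
  induction q using Nat.recOnPosPrimePosCoprime with
  | prime_pow p k hp hk =>
    rw [Nat.primeFactors_prime_pow hk.ne' hp, prod_singleton]
    have hnd : ¬ (p : ℤ) ^ (n0.factorization p + 1) ∣ D := by
      intro h
      have h2 : p ^ (n0.factorization p + 1) ∣ n0 := by
        rw [hn0, ← Int.natCast_dvd]
        push_cast
        exact h
      exact Nat.pow_succ_factorization_not_dvd hn hp h2
    rcases Nat.eq_zero_or_pos (n0.factorization p) with h0 | h0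
    · rw [h0] at hnd ⊢
      rw [zero_add, pow_one] at hnd
      simpa using R_pow_good hB hp (k := k) hk hnd
    · have h1 := R_pow_bad hB hp (k := k) h0 hnd
      exact h1.trans (Nat.le_mul_of_pos_left _ (by positivity))
  | zero => omega
  | one =>
    simp only [Nat.primeFactors_one, prod_empty]
    exact R_card_le f 1
  | coprime a b ha hb hab iha ihb =>
    rw [hab.primeFactors_mul, prod_union hab.disjoint_primeFactors]
    exact (R_mul ha hb hab).trans (Nat.mul_le_mul (iha (by omega)) (ihb (by omega)))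

lemma prod_le (n0 : ℕ) (hn : n0 ≠ 0) (s : Finset ℕ) (hs : ∀ p ∈ s, p.Prime) :
    ∏ p ∈ s, p ^ (n0.factorization p) ≤ n0 := by
  classical
  have h1 : ∏ p ∈ s, p ^ (n0.factorization p) ≤ ∏ p ∈ s ∪ n0.primeFactors,
      p ^ (n0.factorization p) := by
    apply prod_le_prod_of_subset_of_one_le' subset_union_left
    intro p hp _
    apply Nat.one_le_pow
    rcases mem_union.1 hp with h | h
    · exact (hs p h).pos
    · exact (Nat.prime_of_mem_primeFactors h).pos
  have h2 : ∏ p ∈ s ∪ n0.primeFactors, p ^ (n0.factorization p) =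
      ∏ p ∈ n0.primeFactors, p ^ (n0.factorization p) := by
    symm
    apply prod_subset subset_union_right
    intro p _ hp2
    have : n0.factorization p = 0 := by
      rw [← Finsupp.notMem_support_iff, Nat.support_factorization]
      exact hp2
    rw [this, pow_zero]
  have h3 : ∏ p ∈ n0.primeFactors, p ^ (n0.factorization p) = n0 :=
    Nat.prod_factorization_pow_eq_self hn
  rw [h2, h3] at h1
  exact h1

/-- a Bezout identity over the integers -/
lemma bezout (f : ℤ[X]) (hf : Squarefree (f.map (Int.castRingHom ℚ))) :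
    ∃ (u w : ℤ[X]) (D : ℤ), D ≠ 0 ∧ u * f + w * derivative f = C D := by
  have hs : (f.map (Int.castRingHom ℚ)).Separable := PerfectField.separable_iff_squarefree.2 hf
  obtain ⟨a, b, hab⟩ := hs
  obtain ⟨m, hm1, hm⟩ := IsLocalization.integerNormalization_spec (nonZeroDivisors ℤ) a
  obtain ⟨n, hn1, hn⟩ := IsLocalization.integerNormalization_spec (nonZeroDivisors ℤ) b
  set a' := IsLocalization.integerNormalization (nonZeroDivisors ℤ) a
  set b' := IsLocalization.integerNormalization (nonZeroDivisors ℤ) b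
  have hm0 : (m : ℤ) ≠ 0 := nonZeroDivisors.ne_zero hm1
  have hn0 : (n : ℤ) ≠ 0 := nonZeroDivisors.ne_zero hn1
  refine ⟨C (n : ℤ) * a', C (m : ℤ) * b', (m : ℤ) * (n : ℤ), mul_ne_zero hm0 hn0, ?_⟩
  apply Polynomial.map_injective (Int.castRingHom ℚ) Int.cast_injective
  have hm' : a'.map (Int.castRingHom ℚ) = C ((m : ℤ) : ℚ) * a := by
    have h1 : a'.map (Int.castRingHom ℚ) = (m : ℤ) • a := hm
    rw [h1, zsmul_eq_mul]
    simp
  have hn' : b'.map (Int.castRingHom ℚ) = C ((n : ℤ) : ℚ) * b := by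
    have h1 : b'.map (Int.castRingHom ℚ) = (n : ℤ) • b := hn
    rw [h1, zsmul_eq_mul]
    simp
  rw [Polynomial.map_add, Polynomial.map_mul, Polynomial.map_mul, Polynomial.map_mul,
    Polynomial.map_mul, hm', hn', ← Polynomial.derivative_map, Polynomial.map_C, Polynomial.map_C,
    Polynomial.map_C, map_mul, Polynomial.C_mul]
  have e1 : (Int.castRingHom ℚ) (m : ℤ) = ((m : ℤ) : ℚ) := rfl
  have e2 : (Int.castRingHom ℚ) (n : ℤ) = ((n : ℤ) : ℚ) := rfl
  rw [e1, e2]
  linear_combination C ((m : ℤ) : ℚ) * C ((n : ℤ) : ℚ) * hab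

theorem t_ROOT : Pool.Agent.W4.VC.S_ROOT := by
  intro f hf ε hε
  obtain ⟨u, w, D, hD, hB⟩ := bezout f hf
  set n0 := D.natAbs with hn0
  have hn : n0 ≠ 0 := Int.natAbs_ne_zero.2 hD
  set M := f.natDegree + 1 with hM
  have hM0 : (0 : ℝ) < (M : ℝ) := by rw [hM]; positivity
  obtain ⟨C, hC, hdiv⟩ := Pool.Agent.H510R2.divisor_bound (ε / M) (by positivity)
  refine ⟨C ^ M * (n0 : ℝ) ^ 3, by positivity, ?_⟩
  intro q hq
  have h1 : (R f q).card ≤ ∏ p ∈ q.primeFactors, 2 ^ M * p ^ (3 * n0.factorization p) :=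
    R_le hB hD q hq
  have h2 : ∏ p ∈ q.primeFactors, 2 ^ M * p ^ (3 * n0.factorization p) =
      (2 ^ M) ^ q.primeFactors.card * (∏ p ∈ q.primeFactors, p ^ (n0.factorization p)) ^ 3 := by
    rw [prod_mul_distrib, prod_const, ← prod_pow]
    congr 1
    apply prod_congr rfl
    intro p _
    rw [← pow_mul, mul_comm]
  have h3 : ∏ p ∈ q.primeFactors, p ^ (n0.factorization p) ≤ n0 :=
    prod_le n0 hn _ (fun p hp => Nat.prime_of_mem_primeFactors hp)
  have h4 : 2 ^ q.primeFactors.card ≤ q.divisors.card := by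
    rw [Nat.card_divisors (by omega), ← prod_const]
    apply prod_le_prod' 
    intro p hp
    have := (Nat.prime_of_mem_primeFactors hp).factorization_pos_of_dvd (by omega)
      (Nat.dvd_of_mem_primeFactors hp)
    omega
  have h5 : (2 ^ M) ^ q.primeFactors.card ≤ q.divisors.card ^ M := by
    calc (2 ^ M) ^ q.primeFactors.card = (2 ^ q.primeFactors.card) ^ M := by
          rw [← pow_mul, mul_comm, pow_mul]
      _ ≤ _ := Nat.pow_le_pow_left h4 M
  have h6 : (R f q).card ≤ q.divisors.card ^ M * n0 ^ 3 := by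
    rw [h2] at h1
    exact h1.trans (Nat.mul_le_mul h5 (Nat.pow_le_pow_left h3 3))
  have h7 : ((R f q).card : ℝ) ≤ (q.divisors.card : ℝ) ^ M * (n0 : ℝ) ^ 3 := by
    exact_mod_cast h6
  have h8 : ((range q).filter (fun t : ℕ => (q : ℤ) ∣ f.eval (t : ℤ))) = R f q := rfl
  rw [h8]
  refine h7.trans ?_
  have hq0 : (0 : ℝ) ≤ q := by positivity
  have h9 : (q.divisors.card : ℝ) ^ M ≤ C ^ M * (q : ℝ) ^ ε := by
    have := pow_le_pow_left₀ (by positivity) (hdiv q hq) M
    refine this.trans (le_of_eq ?_)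
    rw [mul_pow, ← Real.rpow_natCast ((q : ℝ) ^ (ε / M)) M, ← Real.rpow_mul hq0]
    congr 2
    field_simp
  calc (q.divisors.card : ℝ) ^ M * (n0 : ℝ) ^ 3 ≤ (C ^ M * (q : ℝ) ^ ε) * (n0 : ℝ) ^ 3 :=
        mul_le_mul_of_nonneg_right h9 (by positivity)
    _ = _ := by ring

end Pool.Agent.W177.VC.ROOT
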